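import Mathlib
import Pool.Agent.TH266.LT.Nodal

set_option autoImplicit false

/-!
# Yau's upper bound for the nodal length on every smooth Liouville torus

Let `g = (a(x) + b(y)) (dx² + dy²)` be a Liouville metric on the torus `ℝ² / (L₁ ℤ × L₂ ℤ)`, with
`a` and `b` smooth and periodic, not assumed analytic (`b = 0`: the tori of revolution), and let
`u` be **any** eigenfunction, `Δ_g u + lam u = 0`, that is
`u_xx + u_yy + lam (a + b) u = 0`.  Then the `g`-length of its nodal set is at most
`L₁ L₂ (max (a + b)) √lam`.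

The conformal factor is allowed to vanish; in this way the eigenfunctions of the Liouville metrics
on the sphere (which lift to the branched double cover by a torus) are covered as well.

Idea of the proof.  The operators `P = ∂_x² + lam a(x)` and `Q = ∂_y² + lam b(y)` commute and
`P + Q = 0` on the eigenspace, which is finite dimensional and therefore splits into joint
eigenspaces.  On a horizontal line `u` is thus a finite sum of periodic solutions of
`v_j'' + lam a v_j = μ_j v_j` with `μ_j ≥ - lam max b`.  By the maximum principle the number of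
sign changes on a line does not decrease when `P - κ`, `κ` large, is applied, and
`(P - κ)^m u` tends, after normalisation, to the component with the smallest `μ_j`, whose zeros are
at distance at least `π / √(lam max (a + b))` (Sturm).  So every line parallel to an axis contains
at most `L √(lam max (a + b)) / π` simple zeros in a period `L`.  The zeros where the gradient
vanishes are countable, because on joint eigenfunctions strong unique continuation reduces to
ordinary differential equations, and the length of the rest is bounded by the two counts.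
-/

open Set MeasureTheory
open scoped ContDiff ENNReal

namespace Pool.Agent.Results.MP_c7f82c_an.LiouvilleTorus

open TH266.LT

theorem result
    -- the torus and its metric
    (L₁ L₂ : ℝ) (hL₁ : 0 < L₁) (hL₂ : 0 < L₂) (a b : ℝ → ℝ)
    (ha : ContDiff ℝ ∞ a) (hb : ContDiff ℝ ∞ b)
    (pa : Function.Periodic a L₁) (pb : Function.Periodic b L₂)
    (R : ℝ) (hR : 0 < R) (_hpos : ∀ x y, 0 ≤ a x + b y) (hle : ∀ x y, a x + b y ≤ R)
    -- the eigenfunction
    (lam : ℝ) (hlam : 0 < lam) (u : ℝ → ℝ → ℝ)
    (hu : ContDiff ℝ ∞ (Function.uncurry u))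
    (pu₁ : ∀ x y, u (x + L₁) y = u x y) (pu₂ : ∀ x y, u x (y + L₂) = u x y)
    (heq : ∀ x y, deriv (deriv fun s => u s y) x + deriv (deriv fun t => u x t) y +
      lam * (a x + b y) * u x y = 0)
    (hne : ∃ x y, u x y ≠ 0) :
    -- the length of the nodal set with respect to the metric
    ∫⁻ p in {p : EuclideanSpace ℝ (Fin 2) |
        p 0 ∈ Ico 0 L₁ ∧ p 1 ∈ Ico 0 L₂ ∧ u (p 0) (p 1) = 0},
      ENNReal.ofReal (√(a (p 0) + b (p 1))) ∂μH[1] ≤
    ENNReal.ofReal (L₁ * L₂ * R * √lam) := by
  let D : Dat :=
    { L₁ := L₁, L₂ := L₂, a := fun x => lam * a x, b := fun y => lam * b y, hL₁ := hL₁, hL₂ := hL₂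
      ha := contDiff_const.mul ha, hb := contDiff_const.mul hb
      pa := fun x => by simp only [pa x], pb := fun y => by simp only [pb y] }
  let F : ℝ × ℝ → ℝ := Function.uncurry u
  have hF : F ∈ D.E := by
    refine ⟨hu, fun x y => pu₁ x y, fun x y => pu₂ x y, ?_⟩
    funext ⟨x, y⟩
    have sF : Sm F := hu
    have e1 : dx (dx F) (x, y) = deriv (deriv fun s => u s y) x := by
      rw [dx_eq_deriv sF.dx]
      congr 1
      funext s
      rw [dx_eq_deriv sF]
      rfl
    have e2 : dy (dy F) (x, y) = deriv (deriv fun t => u x t) y := by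
      rw [dy_eq_deriv sF.dy]
      congr 1
      funext s
      rw [dy_eq_deriv sF]
      rfl
    simp only [Dat.P, Dat.Q, Pi.add_apply, Pi.mul_apply, fstF, sndF, Pi.zero_apply, e1, e2]
    have h := heq x y
    show deriv (deriv fun s => u s y) x + lam * a x * u x y +
      (deriv (deriv fun t => u x t) y + lam * b y * u x y) = 0
    linarith
  have hF0 : F ≠ 0 := by
    obtain ⟨x, y, h⟩ := hne
    intro h0
    exact h (congrFun h0 (x, y))
  have hM : 0 < lam * R := mul_pos hlam hR
  have hmain := Dat.nodal_le hF hF0 hM (fun x y => by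
    show lam * a x + lam * b y ≤ lam * R
    rw [← mul_add]; exact mul_le_mul_of_nonneg_left (hle x y) hlam.le)
  have hset : nodal D F = {p : EuclideanSpace ℝ (Fin 2) |
      p 0 ∈ Ico 0 L₁ ∧ p 1 ∈ Ico 0 L₂ ∧ u (p 0) (p 1) = 0} := rfl
  rw [hset] at hmain
  calc _ ≤ ∫⁻ _ in {p : EuclideanSpace ℝ (Fin 2) |
        p 0 ∈ Ico 0 L₁ ∧ p 1 ∈ Ico 0 L₂ ∧ u (p 0) (p 1) = 0}, ENNReal.ofReal (√R) ∂μH[1] := by
        refine lintegral_mono fun p => ENNReal.ofReal_le_ofReal ?_
        exact Real.sqrt_le_sqrt (hle _ _)
    _ = ENNReal.ofReal (√R) * μH[1] {p : EuclideanSpace ℝ (Fin 2) |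
        p 0 ∈ Ico 0 L₁ ∧ p 1 ∈ Ico 0 L₂ ∧ u (p 0) (p 1) = 0} := setLIntegral_const _ _
    _ ≤ ENNReal.ofReal (√R) * ENNReal.ofReal (L₁ * L₂ * √(lam * R)) := by
        gcongr
    _ = ENNReal.ofReal (L₁ * L₂ * R * √lam) := by
        rw [← ENNReal.ofReal_mul (Real.sqrt_nonneg _)]
        congr 1
        rw [Real.sqrt_mul hlam.le]
        have : √R * √R = R := Real.mul_self_sqrt hR.le
        calc √R * (L₁ * L₂ * (√lam * √R)) = L₁ * L₂ * (√R * √R) * √lam := by ring
          _ = _ := by rw [this]

end Pool.Agent.Results.MP_c7f82c_an.LiouvilleTorus
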