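import Mathlib
import Pool.Agent.TH321.YR.Fin

set_option autoImplicit false

/-!
# Yau's upper bound for the nodal length on every smooth sphere of revolution

Let `g = ρ(x₃) g_round` on the unit sphere of `ℝ³`, `ρ` smooth, not assumed analytic.  (By
uniformisation every metric on the sphere which is invariant under a circle action is isometric to
one of these; this remark is not part of the theorem.)  Let `u` be **any** eigenfunction,
`Δ_g u + lam u = 0`.  The Laplacian of `g` is `ρ(x₃)⁻¹` times the Laplacian of the round sphere,
and the latter is the Laplacian of `ℝ³` applied to the extension `U(x) = u(x / |x|)` which is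
homogeneous of degree zero.  Then the `g`-length of the nodal set of `u` is at most
`38 (max ρ) √lam`.

Idea of the proof.  In Mercator coordinates `(x, y)` the equation is
`F_xx + F_yy + b(x) F = 0` on the cylinder `ℝ × ℝ / 2π` with `F` bounded,
`b(x) = lam ρ(tanh x) / cosh² x`.  The Fourier components of `F` vanish for `k² > max b`
(Phragmén-Lindelöf), so `F` is a finite sum of components `F_k` with
`∂_x² F_k = (k² - b) F_k`.  By the maximum principle on the whole line the number of sign changes
of `F` on `{y = const}` does not decrease when `∂_x² + b - κ`, `κ` large, is applied, and the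
iterates converge, after normalisation, to the component with the smallest `k`; a weighted Poincaré
inequality with the weight `b ≤ 4 B e^{∓2x}` (`B = lam max ρ`) separates the zeros of that
component in the variable `e^{±x}`, which gives at most `√(8 B)` simple zeros on a meridian; at most
`2 √B` simple zeros lie on a parallel.  The singular zeros are countable, by unique continuation.
-/

open Set MeasureTheory Laplacian
open scoped ContDiff ENNReal

namespace Pool.Agent.Results.MP_c7f82c_an.RevolutionSpheres

theorem result
    -- the metric `ρ(x₃) g_round`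
    (ρ : ℝ → ℝ) (hρ : ContDiff ℝ ∞ ρ) (A : ℝ) (hA : 0 < A)
    (hρA : ∀ s ∈ Icc (-1 : ℝ) 1, 0 ≤ ρ s ∧ ρ s ≤ A)
    -- the eigenfunction, extended to a function which is homogeneous of degree zero
    (lam : ℝ) (hlam : 0 < lam) (U : EuclideanSpace ℝ (Fin 3) → ℝ)
    (hU : ContDiffOn ℝ ∞ U {0}ᶜ)
    (hom : ∀ t : ℝ, 0 < t → ∀ x, U (t • x) = U x)
    (heq : ∀ x, ‖x‖ = 1 → Δ U x + lam * ρ (x 2) * U x = 0)
    (hne : ∃ x, x ≠ 0 ∧ U x ≠ 0) :
    -- the length of the nodal set with respect to the metric
    ∫⁻ p in {p : EuclideanSpace ℝ (Fin 3) | ‖p‖ = 1 ∧ U p = 0},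
      ENNReal.ofReal (√(ρ (p 2))) ∂μH[1] ≤
    ENNReal.ofReal (38 * A * √lam) :=
  TH321.YR.length_le ⟨hU, hom, heq⟩ hρ hlam hA hρA hne

end Pool.Agent.Results.MP_c7f82c_an.RevolutionSpheres
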